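import Mathlib

/-!
# Spheres in uniform hypergraphs: definitions
-/

namespace Pool.Agent.Helper75.SP

/-- The geometric realisation of the simplicial complex generated by a finite family `F` of finite
sets of vertices: the points `x` of the standard simplex whose support is contained in a member
of `F`. -/
def realisation {V : Type} [Fintype V] (F : Finset (Finset V)) : Set (V → ℝ) :=
  {x | (∀ v, 0 ≤ x v) ∧ ∑ v, x v = 1 ∧ ∃ e ∈ F, ∀ v, x v ≠ 0 → v ∈ e}

/-- The complex generated by `F` is homeomorphic to the sphere of dimension `k - 1`, the unit sphere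
of Euclidean space of dimension `k`. -/
def IsSphere {V : Type} [Fintype V] (k : ℕ) (F : Finset (Finset V)) : Prop :=
  Nonempty (realisation F ≃ₜ Metric.sphere (0 : EuclideanSpace ℝ (Fin k)) 1)

/-- The number of edges of `H` which contain `S`. -/
def codegree {n : ℕ} (H : Finset (Finset (Fin n))) (S : Finset (Fin n)) : ℕ :=
  (H.filter fun e => S ⊆ e).card

/-- The number of vertices which lie in no member of `F`. -/
def missed {n : ℕ} (F : Finset (Finset (Fin n))) : ℕ :=
  (Finset.univ.filter fun v : Fin n => ∀ e ∈ F, v ∉ e).card

end Pool.Agent.Helper75.SP
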