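import Pool.Agent.Helper75.SP.Het
import Pool.Agent.Helper75.SP.Defs

/-!
# Maps on a complex which collapses to a complex of small dimension
-/

namespace Pool.Agent.Helper75.SP

open Set Topology

variable {V : Type} [Fintype V]

theorem isClosed_real (F : Finset (Finset V)) : IsClosed (realisation F) := by
  have : realisation F = ⋃ e ∈ F, {x : V → ℝ | (∀ v, 0 ≤ x v) ∧ ∑ v, x v = 1 ∧
      ∀ v, v ∉ e → x v = 0} := by
    ext x
    simp only [realisation, mem_ofPred_eq, mem_iUnion, exists_prop]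
    constructor
    · rintro ⟨h1, h2, e, he, h3⟩
      exact ⟨e, he, h1, h2, fun v hv => by_contra fun h => hv (h3 v h)⟩
    · rintro ⟨e, he, h1, h2, h3⟩
      exact ⟨h1, h2, e, he, fun v hv => by_contra fun h => hv (h3 v h)⟩
  rw [this]
  refine isClosed_biUnion_finset fun e _ => ?_
  have h1 : IsClosed {x : V → ℝ | ∀ v, 0 ≤ x v} := by
    simp only [ofPred_forall]
    exact isClosed_iInter fun v => isClosed_le continuous_const (continuous_apply v)
  have h2 : IsClosed {x : V → ℝ | ∑ v, x v = 1} :=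
    isClosed_eq (continuous_finsetSum _ fun v _ => continuous_apply v) continuous_const
  have h3 : IsClosed {x : V → ℝ | ∀ v, v ∉ e → x v = 0} := by
    simp only [ofPred_forall]
    exact isClosed_iInter fun v => isClosed_iInter fun _ =>
      isClosed_eq (continuous_apply v) continuous_const
  exact h1.inter (h2.inter h3)

theorem isCompact_real (F : Finset (Finset V)) : IsCompact (realisation F) :=
  (isCompact_stdSimplex ℝ V).of_isClosed_subset (isClosed_real F) fun _ hx => ⟨hx.1, hx.2.1⟩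

theorem real_mono {F F' : Finset (Finset V)} (h : F ⊆ F') : realisation F ⊆ realisation F' :=
  fun _ hx => ⟨hx.1, hx.2.1, hx.2.2.imp fun _ he => ⟨h he.1, he.2⟩⟩

theorem ext_collapse [DecidableEq V] {W : Type*} [NormedAddCommGroup W]
    [NormedSpace ℝ W] [FiniteDimensional ℝ W] (c : ℕ) (hc1 : 1 ≤ c)
    (hc : c < Module.finrank ℝ W) (𝒵 𝓡 : Finset (Finset V)) (z : Finset V → V)
    (hZ : ∀ G ∈ 𝒵, G.card ≤ c) (hR : ∀ R ∈ 𝓡, R.card = c + 1) (hz : ∀ R ∈ 𝓡, z R ∈ R)
    (hRZ : ∀ R ∈ 𝓡, ∀ v ∈ R, R.erase v ∈ 𝒵)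
    (free : ∀ R ∈ 𝓡, ∀ R' ∈ 𝓡, R.erase (z R) ⊆ R' → R' = R)
    (f : (V → ℝ) → W) (hf : ContinuousOn f (realisation (𝒵 ∪ 𝓡)))
    (hf0 : ∀ x ∈ realisation (𝒵 ∪ 𝓡), f x ≠ 0) :
    ∃ F : (V → ℝ) → W, Continuous F ∧ (∀ x, F x ≠ 0) ∧ ∀ x ∈ realisation (𝒵 ∪ 𝓡), F x = f x := by
  have hcard : ∀ R ∈ 𝓡, (R.erase (z R)).card = c := fun R h => by
    rw [Finset.card_erase_of_mem (hz R h), hR R h]; rfl
  have hne : ∀ R ∈ 𝓡, (R.erase (z R)).Nonempty := fun R h => by
    rw [← Finset.card_pos, hcard R h]; exact hc1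
  let μ : Finset V → (V → ℝ) → ℝ := fun R x =>
    if h : (R.erase (z R)).Nonempty then (R.erase (z R)).inf' h x else 0
  have hμ : ∀ R (hR : R ∈ 𝓡) x, μ R x = (R.erase (z R)).inf' (hne R hR) x := by
    intro R h x
    simp only [μ, hne R h, dite_true]
  have hμc : ∀ R, Continuous (μ R) := by
    intro R
    by_cases h : (R.erase (z R)).Nonempty
    · simp only [μ, h, dite_true]
      exact Continuous.finset_inf'_apply h fun v _ => continuous_apply v
    · simp only [μ, h, dite_false]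
      exact continuous_const
  let w : Finset V → V → ℝ := fun R v => if v = z R then -(c : ℝ) else if v ∈ R then 1 else 0
  have hwsum : ∀ R ∈ 𝓡, ∑ v, w R v = 0 := by
    intro R h
    rw [← Finset.add_sum_erase Finset.univ (w R) (Finset.mem_univ (z R))]
    have h1 : ∑ v ∈ Finset.univ.erase (z R), w R v = ∑ v ∈ R.erase (z R), (1 : ℝ) := by
      symm
      rw [← Finset.sum_subset (Finset.erase_subset_erase (z R) (Finset.subset_univ R))]
      · refine Finset.sum_congr rfl fun v hv => ?_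
        simp only [w, (Finset.mem_erase.1 hv).1, if_false, (Finset.mem_erase.1 hv).2, if_true]
      · intro v hv hv'
        have h2 : v ≠ z R := (Finset.mem_erase.1 hv).1
        have h3 : v ∉ R := fun h3 => hv' (Finset.mem_erase.2 ⟨h2, h3⟩)
        simp only [w, h2, h3, if_false]
    rw [h1]
    simp only [w, if_true, Finset.sum_const, hcard R h, nsmul_eq_mul, mul_one]
    ring
  let h : (V → ℝ) × ℝ → (V → ℝ) := fun p => p.1 - p.2 • ∑ R ∈ 𝓡, μ R p.1 • w R
  have hh : Continuous h := by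
    refine continuous_fst.sub (continuous_snd.smul (continuous_finsetSum _ fun R _ => ?_))
    exact ((hμc R).comp continuous_fst).smul continuous_const
  -- the dichotomy
  have key : ∀ x ∈ realisation (𝒵 ∪ 𝓡), (x ∈ realisation 𝒵 ∧ ∀ R ∈ 𝓡, μ R x = 0) ∨
      ∃ R ∈ 𝓡, (∀ v, x v ≠ 0 → v ∈ R) ∧ 0 ≤ μ R x ∧ ∀ R' ∈ 𝓡, R' ≠ R → μ R' x = 0 := by
    intro x hx
    obtain ⟨hx0, hx1, G, hG, hxG⟩ := hx
    have hsupp : ∀ R ∈ 𝓡, μ R x ≠ 0 → ∀ v ∈ R.erase (z R), x v ≠ 0 := by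
      intro R hR' hμR v hv h0
      apply hμR
      rw [hμ R hR']
      refine le_antisymm ?_ ?_
      · exact (Finset.inf'_le x hv).trans h0.le
      · exact Finset.le_inf' _ _ fun v _ => hx0 v
    by_cases hex : ∃ R ∈ 𝓡, μ R x ≠ 0
    · right
      obtain ⟨R, hRm, hRμ⟩ := hex
      have hxR : ∀ v, x v ≠ 0 → v ∈ R := by
        have h1 : R.erase (z R) ⊆ G := fun v hv => hxG v (hsupp R hRm hRμ v hv)
        rcases Finset.mem_union.1 hG with hG' | hG'
        · have h2 : R.erase (z R) = G :=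
            Finset.eq_of_subset_of_card_le h1 (by rw [hcard R hRm]; exact hZ G hG')
          intro v hv
          exact Finset.mem_of_mem_erase (h2 ▸ hxG v hv)
        · rw [← free R hRm G hG' h1]
          exact hxG
      refine ⟨R, hRm, hxR, ?_, ?_⟩
      · rw [hμ R hRm]
        exact Finset.le_inf' _ _ fun v _ => hx0 v
      · intro R' hR' hne'
        by_contra h0
        apply hne'
        exact (free R' hR' R hRm fun v hv => hxR v (hsupp R' hR' h0 v hv)).symm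
    · left
      push Not at hex
      refine ⟨?_, hex⟩
      rcases Finset.mem_union.1 hG with hG' | hG'
      · exact ⟨hx0, hx1, G, hG', hxG⟩
      · obtain ⟨v, hv, hvμ⟩ := Finset.exists_mem_eq_inf' (hne G hG') x
        rw [← hμ G hG', hex G hG'] at hvμ
        refine ⟨hx0, hx1, G.erase v, hRZ G hG' v (Finset.mem_of_mem_erase hv), ?_⟩
        intro u hu
        refine Finset.mem_erase.2 ⟨?_, hxG u hu⟩
        rintro rfl
        exact hu hvμ.symm
  have hA : ∀ x, (∀ R ∈ 𝓡, μ R x = 0) → ∀ t, h (x, t) = x := by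
    intro x hx t
    simp only [h]
    rw [Finset.sum_eq_zero (fun R hR' => by rw [hx R hR', zero_smul]), smul_zero, sub_zero]
  have hB : ∀ x, ∀ R ∈ 𝓡, (∀ R' ∈ 𝓡, R' ≠ R → μ R' x = 0) → ∀ t,
      h (x, t) = x - (t * μ R x) • w R := by
    intro x R hR' hx t
    simp only [h]
    rw [Finset.sum_eq_single_of_mem R hR' (fun R' h1 h2 => by rw [hx R' h1 h2, zero_smul]),
      smul_smul]
  -- in the second case
  have hB2 : ∀ x ∈ realisation (𝒵 ∪ 𝓡), ∀ R ∈ 𝓡, (∀ v, x v ≠ 0 → v ∈ R) → 0 ≤ μ R x →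
      ∀ t ∈ Icc (0 : ℝ) 1, (∀ v, 0 ≤ (x - (t * μ R x) • w R) v) ∧
        ∑ v, (x - (t * μ R x) • w R) v = 1 ∧ ∀ v, (x - (t * μ R x) • w R) v ≠ 0 → v ∈ R := by
    intro x hx R hRm hxR hμ0 t ht
    refine ⟨fun v => ?_, ?_, fun v hv => ?_⟩
    · simp only [Pi.sub_apply, Pi.smul_apply, smul_eq_mul]
      by_cases h1 : v = z R
      · simp only [w, h1, if_true]
        have := hx.1 (z R)
        have h2 : 0 ≤ t * μ R x * c := by
          have := ht.1
          positivity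
        linarith
      · by_cases h2 : v ∈ R
        · simp only [w, h1, if_false, h2, if_true, mul_one]
          have h3 : μ R x ≤ x v := by
            rw [hμ R hRm]
            exact Finset.inf'_le x (Finset.mem_erase.2 ⟨h1, h2⟩)
          nlinarith [ht.1, ht.2]
        · simp only [w, h1, if_false, h2, mul_zero, sub_zero]
          exact hx.1 v
    · simp only [Pi.sub_apply, Pi.smul_apply, smul_eq_mul]
      rw [Finset.sum_sub_distrib, ← Finset.mul_sum, hwsum R hRm, mul_zero, sub_zero]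
      exact hx.2.1
    · by_contra hvR
      apply hv
      have h1 : v ≠ z R := fun h1 => hvR (h1 ▸ hz R hRm)
      have h2 : x v = 0 := by_contra fun h2 => hvR (hxR v h2)
      simp [w, h1, hvR, h2]
  have hmem : ∀ x ∈ realisation (𝒵 ∪ 𝓡), ∀ t ∈ Icc (0 : ℝ) 1,
      h (x, t) ∈ realisation (𝒵 ∪ 𝓡) := by
    intro x hx t ht
    rcases key x hx with ⟨-, hx1⟩ | ⟨R, hRm, hxR, hμ0, hu⟩
    · rw [hA x hx1]; exact hx
    · rw [hB x R hRm hu]
      obtain ⟨a1, a2, a3⟩ := hB2 x hx R hRm hxR hμ0 t ht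
      exact ⟨a1, a2, R, Finset.mem_union_right _ hRm, a3⟩
  have hmem1 : ∀ x ∈ realisation (𝒵 ∪ 𝓡), h (x, 1) ∈ realisation 𝒵 := by
    intro x hx
    rcases key x hx with ⟨hx0, hx1⟩ | ⟨R, hRm, hxR, hμ0, hu⟩
    · rw [hA x hx1]; exact hx0
    · rw [hB x R hRm hu]
      obtain ⟨a1, a2, a3⟩ := hB2 x hx R hRm hxR hμ0 1 (by simp)
      obtain ⟨v, hv, hvμ⟩ := Finset.exists_mem_eq_inf' (hne R hRm) x
      rw [← hμ R hRm] at hvμ
      refine ⟨a1, a2, R.erase v, hRZ R hRm v (Finset.mem_of_mem_erase hv), ?_⟩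
      intro u hu'
      refine Finset.mem_erase.2 ⟨?_, a3 u hu'⟩
      rintro rfl
      apply hu'
      simp [w, (Finset.mem_erase.1 hv).1, (Finset.mem_erase.1 hv).2, hvμ]
  have hsub : realisation 𝒵 ⊆ realisation (𝒵 ∪ 𝓡) := real_mono Finset.subset_union_left
  obtain ⟨F₀, hF₀, hF₀0, hF₀e⟩ := ext_small c hc (isCompact_real 𝒵)
    (fun x hx => ⟨hx.2.2.imp fun G hG => ⟨hZ G hG.1, hG.2⟩, hx.2.1⟩) f (hf.mono hsub)
    (fun x hx => hf0 x (hsub hx))
  have hh0 : ∀ x, h (x, 0) = x := fun x => by simp [h]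
  obtain ⟨F₁, hF₁, hF₁0, hF₁e⟩ := het (isClosed_real (𝒵 ∪ 𝓡)) (fun p => F₀ (h (p.1, 1 - p.2)))
    (hF₀.comp (hh.comp (by fun_prop))).continuousOn (fun x _ t _ => hF₀0 _) F₀ hF₀ hF₀0
    (fun x _ => by simp [hh0])
  obtain ⟨F₂, hF₂, hF₂0, hF₂e⟩ := het (isClosed_real (𝒵 ∪ 𝓡)) (fun p => f (h p))
    (hf.comp hh.continuousOn fun p hp => hmem p.1 hp.1 p.2 hp.2)
    (fun x hx t ht => hf0 _ (hmem x hx t ht)) F₁ hF₁ hF₁0
    (fun x hx => by
      rw [hF₁e x hx]
      simp only [sub_zero]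
      exact hF₀e _ (hmem1 x hx))
  exact ⟨F₂, hF₂, hF₂0, fun x hx => by rw [hF₂e x hx, hh0]⟩

end Pool.Agent.Helper75.SP
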