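import Mathlib

/-!
# The hypergraphs: parking functions
-/

set_option linter.unusedSectionVars false

namespace Pool.Agent.Helper75.SP

open Finset

variable {n k : ℕ} [NeZero k]

/-- The position of the vertex `v` in the cyclic order of the parts which starts with the
part `q`.  The part of `v` is the residue class of `v` modulo `k`. -/
def pos (q : ZMod k) (v : Fin n) : ℕ := (((v : ℕ) : ZMod k) - q).val

/-- The number of vertices of `S` in the first `i` parts, starting with the part `q`. -/
def cnt (q : ZMod k) (S : Finset (Fin n)) (i : ℕ) : ℕ := (S.filter fun v => pos q v < i).card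

theorem pos_lt (q : ZMod k) (v : Fin n) : pos q v < k := ZMod.val_lt _

theorem pos_add (q : ZMod k) (v : Fin n) {i : ℕ} (hi : i < k) :
    pos (q + (i : ZMod k)) v = if pos q v < i then pos q v + k - i else pos q v - i := by
  have hiv : ((i : ZMod k)).val = i := ZMod.val_cast_of_lt hi
  have h1 : (((v : ℕ) : ZMod k) - q) = (((v : ℕ) : ZMod k) - (q + i)) + (i : ZMod k) := by ring
  have h2 : pos q v = ((((v : ℕ) : ZMod k) - (q + i)) + (i : ZMod k)).val := by
    rw [← h1]; rfl
  have h3 : (((v : ℕ) : ZMod k) - (q + i)).val < k := ZMod.val_lt _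
  by_cases h : (((v : ℕ) : ZMod k) - (q + i)).val + ((i : ZMod k)).val < k
  · rw [ZMod.val_add_of_lt h, hiv] at h2
    rw [if_neg (by omega)]
    show (((v : ℕ) : ZMod k) - (q + i)).val = _
    omega
  · have h4 := ZMod.val_add_val_of_le (not_lt.1 h)
    rw [hiv, ← h2] at h4
    rw [if_pos (by omega)]
    show (((v : ℕ) : ZMod k) - (q + i)).val = _
    omega

theorem cnt_le_card (q : ZMod k) (S : Finset (Fin n)) (i : ℕ) : cnt q S i ≤ S.card :=
  card_filter_le _ _

theorem cnt_top (q : ZMod k) (S : Finset (Fin n)) : cnt q S k = S.card := by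
  unfold cnt
  rw [filter_true_of_mem fun v _ => pos_lt q v]

theorem cnt_mono (q : ZMod k) {S T : Finset (Fin n)} (h : S ⊆ T) (i : ℕ) : cnt q S i ≤ cnt q T i :=
  card_le_card (filter_subset_filter _ h)

theorem cnt_erase (q : ZMod k) (S : Finset (Fin n)) (v : Fin n) (i : ℕ) :
    cnt q S i ≤ cnt q (S.erase v) i + 1 := by
  unfold cnt
  rw [filter_erase]
  have := pred_card_le_card_erase (s := S.filter fun v => pos q v < i) (a := v)
  omega

theorem cnt_erase_of_le (q : ZMod k) (S : Finset (Fin n)) {v : Fin n} {i : ℕ} (h : i ≤ pos q v) :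
    cnt q (S.erase v) i = cnt q S i := by
  unfold cnt
  rw [filter_erase, erase_eq_of_notMem]
  simp only [mem_filter, not_and, not_lt]
  exact fun _ => h

theorem cnt_insert (q : ZMod k) {S : Finset (Fin n)} {v : Fin n} (hv : v ∉ S) {i : ℕ}
    (h : pos q v < i) : cnt q (insert v S) i = cnt q S i + 1 := by
  unfold cnt
  rw [filter_insert, if_pos h, card_insert_of_notMem]
  simp [hv]

theorem cnt_insert_of_le (q : ZMod k) {S : Finset (Fin n)} {v : Fin n} {i : ℕ}
    (h : i ≤ pos q v) : cnt q (insert v S) i = cnt q S i := by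
  unfold cnt
  rw [filter_insert, if_neg (by omega)]

/-- The special vertex in the part following `q`. -/
def zz (hkn : k ≤ n) (q : ZMod k) : Fin n := ⟨(q + 1).val, (ZMod.val_lt _).trans_le hkn⟩

theorem pos_zz (hk : 2 ≤ k) (hkn : k ≤ n) (q : ZMod k) : pos q (zz hkn q) = 1 := by
  have : Fact (1 < k) := ⟨hk⟩
  show ((((q + 1).val : ℕ) : ZMod k) - q).val = 1
  rw [ZMod.natCast_zmod_val, add_sub_cancel_left, ZMod.val_one]

/-- The edges of the class `q`. -/
def Edge (hkn : k ≤ n) (q : ZMod k) (e : Finset (Fin n)) : Prop :=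
  e.card = k ∧ (∀ i, 2 ≤ i → i ≤ k - 1 → i + 1 ≤ cnt q e i) ∧
    (2 ≤ cnt q e 1 ∨ cnt q e 1 = 1 ∧ zz hkn q ∈ e)

/-- The sets of `k - 1` vertices of the class `q`. -/
def Park (q : ZMod k) (S : Finset (Fin n)) : Prop :=
  S.card = k - 1 ∧ ∀ i, 1 ≤ i → i ≤ k - 1 → i ≤ cnt q S i

/-- The possible common ridges of edges of different classes. -/
def Inter (hkn : k ≤ n) (q : ZMod k) (S : Finset (Fin n)) : Prop :=
  S.card = k - 1 ∧ cnt q S 1 = 0 ∧ (∀ i, 2 ≤ i → i ≤ k - 1 → i ≤ cnt q S i) ∧ zz hkn q ∈ S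

theorem edge_ridge (hk : 3 ≤ k) (hkn : k ≤ n) {q : ZMod k} {e : Finset (Fin n)}
    (he : Edge hkn q e) {v : Fin n} (hv : v ∈ e) :
    Park q (e.erase v) ∨ Inter hkn q (e.erase v) := by
  obtain ⟨hc, h2, h1⟩ := he
  have hcard : (e.erase v).card = k - 1 := by rw [card_erase_of_mem hv, hc]
  have h3 : ∀ i, 2 ≤ i → i ≤ k - 1 → i ≤ cnt q (e.erase v) i := by
    intro i hi hi'
    have := h2 i hi hi'
    have := cnt_erase q e v i
    omega
  by_cases h4 : 1 ≤ cnt q (e.erase v) 1
  · left
    refine ⟨hcard, fun i hi hi' => ?_⟩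
    rcases Nat.lt_or_ge i 2 with h | h
    · have : i = 1 := by omega
      subst this
      exact h4
    · exact h3 i h hi'
  · right
    have h5 : cnt q (e.erase v) 1 = 0 := by omega
    have h6 := cnt_erase q e v 1
    rcases h1 with h1 | ⟨h1, hz⟩
    · omega
    · refine ⟨hcard, h5, h3, mem_erase.2 ⟨?_, hz⟩⟩
      rintro rfl
      rw [cnt_erase_of_le q e (by rw [pos_zz (by omega) hkn])] at h5
      omega

theorem cnt_succ_of {q : ZMod k} (hk : 2 ≤ k) {S : Finset (Fin n)} (h0 : cnt q S 1 = 0) {i : ℕ}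
    (_hi : i + 1 ≤ k) : cnt (q + 1) S i = cnt q S (i + 1) := by
  unfold cnt at h0 ⊢
  rw [card_eq_zero, filter_eq_empty_iff] at h0
  congr 1
  refine filter_congr fun v hv => ?_
  have h1 := h0 hv
  have h2 := pos_add q v (i := 1) (by omega)
  rw [Nat.cast_one, if_neg h1] at h2
  omega

theorem park_of_inter (hk : 3 ≤ k) (hkn : k ≤ n) {q : ZMod k} {S : Finset (Fin n)}
    (h : Inter hkn q S) : Park (q + 1) S := by
  obtain ⟨hc, h0, h2, -⟩ := h
  refine ⟨hc, fun i hi hi' => ?_⟩
  rw [cnt_succ_of (by omega) h0 (by omega)]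
  rcases Nat.lt_or_ge i (k - 1) with h | h
  · have := h2 (i + 1) (by omega) (by omega)
    omega
  · have h3 : i + 1 = k := by omega
    rw [h3, cnt_top, hc]
    omega

theorem park_unique (hk : 3 ≤ k) {q q' : ZMod k} {S : Finset (Fin n)} (h : Park q S)
    (h' : Park q' S) : q = q' := by
  by_contra hne
  let i := (q' - q).val
  have hi : i < k := ZMod.val_lt _
  have hi0 : i ≠ 0 := by
    intro h0
    have : q' - q = 0 := (ZMod.val_eq_zero _).1 h0
    exact hne (sub_eq_zero.1 this).symm
  have hq' : q' = q + (i : ZMod k) := by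
    simp only [i, ZMod.natCast_zmod_val]
    ring
  have h1 := h.2 i (by omega) (by omega)
  have h2 := h'.2 (k - i) (by omega) (by omega)
  have h3 : cnt q S i + cnt q' S (k - i) ≤ S.card := by
    unfold cnt
    rw [← card_union_of_disjoint]
    · exact card_le_card (union_subset (filter_subset _ _) (filter_subset _ _))
    · rw [disjoint_filter]
      intro v _ hv hv'
      rw [hq', pos_add q v hi, if_pos hv] at hv'
      omega
  rw [h.1] at h3
  omega

theorem inter_free (hk : 3 ≤ k) (hkn : k ≤ n) {q q' : ZMod k} {S S' : Finset (Fin n)}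
    (h : Inter hkn q S) (h' : Inter hkn q' S') (hsub : S.erase (zz hkn q) ⊆ S') : S' = S := by
  obtain ⟨hc, h0, h2, hz⟩ := h
  have hD : (S.erase (zz hkn q)).card = k - 2 := by rw [card_erase_of_mem hz, hc]; omega
  have hone : (S' \ S.erase (zz hkn q)).card = 1 := by
    rw [card_sdiff_of_subset hsub, h'.1, hD]; omega
  obtain ⟨w, hw⟩ := card_eq_one.1 hone
  have hwS' : w ∈ S' := (mem_sdiff.1 (hw ▸ mem_singleton_self w)).1
  have hwD : w ∉ S.erase (zz hkn q) := (mem_sdiff.1 (hw ▸ mem_singleton_self w)).2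
  have hS' : S' = insert w (S.erase (zz hkn q)) := by
    ext v
    simp only [mem_insert]
    constructor
    · intro hv
      by_cases hvD : v ∈ S.erase (zz hkn q)
      · exact Or.inr hvD
      · left
        have : v ∈ S' \ S.erase (zz hkn q) := mem_sdiff.2 ⟨hv, hvD⟩
        rw [hw] at this
        exact mem_singleton.1 this
    · rintro (rfl | hv)
      · exact hwS'
      · exact hsub hv
  have hD0 : cnt q (S.erase (zz hkn q)) 1 = 0 := by
    have := cnt_mono q (erase_subset (zz hkn q) S) 1
    omega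
  have hP' := park_of_inter hk hkn h'
  by_cases hpw : pos q w < 1
  · exfalso
    have hP : Park q S' := by
      refine ⟨h'.1, fun i hi hi' => ?_⟩
      rw [hS', cnt_insert q hwD (by omega)]
      rcases Nat.lt_or_ge i 2 with h | h
      · omega
      · have := h2 i h hi'
        have := cnt_erase q S (zz hkn q) i
        omega
    have hqq : q = q' + 1 := park_unique hk hP hP'
    have h4 := h'.2.2.1 2 le_rfl (by omega)
    have h5 : cnt q S' 1 = 1 := by
      rw [hS', cnt_insert q hwD hpw, hD0]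
    rw [hqq, cnt_succ_of (by omega) h'.2.1 (by omega)] at h5
    have h6 : cnt q' S' 2 = 1 := h5
    omega
  · have hS0 : cnt q S' 1 = 0 := by
      rw [hS', cnt_insert_of_le q (by omega), hD0]
    have hP : Park (q + 1) S' := by
      refine ⟨h'.1, fun i hi hi' => ?_⟩
      rw [cnt_succ_of (by omega) hS0 (by omega)]
      rcases Nat.lt_or_ge i (k - 1) with h | h
      · have h6 := h2 (i + 1) (by omega) (by omega)
        have h7 := cnt_erase q S (zz hkn q) (i + 1)
        have h8 := cnt_mono q hsub (i + 1)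
        omega
      · have h3 : i + 1 = k := by omega
        rw [h3, cnt_top, h'.1]
        omega
    have hqq : q + 1 = q' + 1 := park_unique hk hP hP'
    have hqq' : q = q' := add_right_cancel hqq
    subst hqq'
    symm
    refine eq_of_subset_of_card_le ?_ (by rw [hc, h'.1])
    intro v hv
    by_cases hvz : v = zz hkn q
    · rw [hvz]; exact h'.2.2.2
    · exact hsub (mem_erase.2 ⟨hvz, hv⟩)

theorem exists_park (hk : 3 ≤ k) {S : Finset (Fin n)} (hS : S.card = k - 1) :
    ∃ q : ZMod k, Park q S := by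
  obtain ⟨q, -, hq⟩ := exists_min_image (univ : Finset (ZMod k)) (fun q => ∑ v ∈ S, pos q v)
    ⟨0, mem_univ _⟩
  refine ⟨q, hS, fun i hi hi' => ?_⟩
  have h1 := hq (q + (i : ZMod k)) (mem_univ _)
  have h2 : ∑ v ∈ S, pos (q + (i : ZMod k)) v + i * S.card = ∑ v ∈ S, pos q v + k * cnt q S i := by
    have h3 : i * S.card = ∑ v ∈ S, i := by rw [sum_const, smul_eq_mul, mul_comm]
    have h4 : k * cnt q S i = ∑ v ∈ S, if pos q v < i then k else 0 := by
      rw [← sum_filter, sum_const, smul_eq_mul, mul_comm]; rfl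
    rw [h3, h4, ← sum_add_distrib, ← sum_add_distrib]
    refine sum_congr rfl fun v _ => ?_
    rw [pos_add q v (by omega)]
    have := pos_lt q v
    split_ifs <;> omega
  rw [hS] at h2
  by_contra hlt
  have h5 : cnt q S i ≤ i - 1 := by omega
  have h6 : k * cnt q S i ≤ k * (i - 1) := Nat.mul_le_mul_left k h5
  have h7 : k * (i - 1) < i * (k - 1) := by
    obtain ⟨i, rfl⟩ := Nat.exists_eq_succ_of_ne_zero (show i ≠ 0 by omega)
    obtain ⟨k', hk'⟩ := Nat.exists_eq_succ_of_ne_zero (show k ≠ 0 by omega)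
    rw [hk'] at hi' ⊢
    simp only [Nat.succ_eq_add_one, Nat.add_sub_cancel] at *
    nlinarith
  omega

theorem part_card (q : ZMod k) {j : ℕ} (hj : j < k) :
    n / k ≤ (univ.filter fun v : Fin n => pos q v = j).card := by
  have hk0 : 0 < k := Nat.pos_of_ne_zero (NeZero.ne k)
  let r : ℕ := (q + (j : ZMod k)).val
  have hr : r < k := ZMod.val_lt _
  have hlt : ∀ a : Fin (n / k), (a : ℕ) * k + r < n := by
    intro a
    have h1 : ((a : ℕ) + 1) * k ≤ n / k * k := Nat.mul_le_mul_right k a.2
    have h2 := Nat.div_mul_le_self n k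
    have h3 : ((a : ℕ) + 1) * k = (a : ℕ) * k + k := by ring
    omega
  rw [← Fintype.card_fin (n / k), ← card_univ]
  refine card_le_card_of_injOn (fun a => ⟨(a : ℕ) * k + r, hlt a⟩) ?_ ?_
  · intro a _
    simp only [coe_filter, mem_univ, true_and, Set.mem_ofPred_eq]
    show (((((a : ℕ) * k + r : ℕ)) : ZMod k) - q).val = j
    rw [Nat.cast_add, Nat.cast_mul, ZMod.natCast_self, mul_zero, zero_add]
    simp only [r, ZMod.natCast_zmod_val, add_sub_cancel_left]
    exact ZMod.val_cast_of_lt hj
  · intro a _ b _ hab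
    simp only [Fin.mk.injEq] at hab
    have : (a : ℕ) * k = b * k := by omega
    exact Fin.ext (Nat.eq_of_mul_eq_mul_right hk0 this)

open Classical in
theorem many_ext (hk : 3 ≤ k) (hkn : k ≤ n) (hn : k * (k - 1) ≤ n) {S : Finset (Fin n)}
    (hS : S.card = k - 1) :
    n / k ≤ (univ.filter fun v : Fin n => v ∉ S ∧ ∃ q, Edge hkn q (insert v S)).card := by
  obtain ⟨q, hq⟩ := exists_park hk hS
  have hm : k - 1 ≤ n / k := (Nat.le_div_iff_mul_le (by omega)).2 (by rw [mul_comm]; exact hn)
  let A : ℕ → Finset (Fin n) := fun j => univ.filter fun v : Fin n => pos q v = j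
  have hA0 : n / k ≤ (A 0).card := part_card q (by omega)
  have hA1 : n / k ≤ (A 1).card := part_card q (by omega)
  have hq1 : 1 ≤ cnt q S 1 := hq.2 1 le_rfl (by omega)
  have hSA0 : cnt q S 1 = (S ∩ A 0).card := by
    unfold cnt
    congr 1
    ext v
    simp only [mem_filter, mem_inter, A, mem_univ, true_and]
    constructor
    · rintro ⟨h1, h2⟩; exact ⟨h1, by omega⟩
    · rintro ⟨h1, h2⟩; exact ⟨h1, by omega⟩
  have hdisj : Disjoint (A 0) (A 1) := by
    rw [disjoint_filter]
    intro v _ h1 h2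
    omega
  have hins : ∀ v, v ∉ S → (insert v S).card = k := by
    intro v hv
    rw [card_insert_of_notMem hv, hS]; omega
  have hmid : ∀ v, v ∉ S → pos q v < 2 → ∀ i, 2 ≤ i → i ≤ k - 1 → i + 1 ≤ cnt q (insert v S) i := by
    intro v hv hp i hi hi'
    rw [cnt_insert q hv (by omega)]
    have := hq.2 i (by omega) hi'
    omega
  have hcase0 : ∀ v, v ∉ S → pos q v = 0 → Edge hkn q (insert v S) := by
    intro v hv hp
    refine ⟨hins v hv, hmid v hv (by omega), Or.inl ?_⟩
    rw [cnt_insert q hv (by omega)]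
    omega
  rcases Nat.lt_or_ge (cnt q S 1) 2 with h | h
  · -- exactly one vertex in the first part
    have hone : (S ∩ A 0).card = 1 := by omega
    have hw : ∃ w, w ∉ S ∧ pos q w = 1 ∧ Edge hkn q (insert w S) := by
      by_cases hz : zz hkn q ∈ S
      · have : ∃ w ∈ A 1, w ∉ S := by
          by_contra hcon
          push Not at hcon
          have h1 : A 1 ∪ (S ∩ A 0) ⊆ S := union_subset (fun v hv => hcon v hv) inter_subset_left
          have h2 := card_le_card h1
          rw [card_union_of_disjoint (hdisj.symm.mono_right inter_subset_right), hS, hone] at h2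
          omega
        obtain ⟨w, hw, hwS⟩ := this
        have hw1 : pos q w = 1 := (mem_filter.1 hw).2
        refine ⟨w, hwS, hw1, hins w hwS, hmid w hwS (by omega), Or.inr ⟨?_, mem_insert_of_mem hz⟩⟩
        rw [cnt_insert_of_le q (by omega)]
        omega
      · have hw1 := pos_zz (by omega) hkn q
        refine ⟨zz hkn q, hz, hw1, hins _ hz, hmid _ hz (by omega),
          Or.inr ⟨?_, mem_insert_self _ _⟩⟩
        rw [cnt_insert_of_le q (by omega)]
        omega
    obtain ⟨w, hwS, hw1, hwE⟩ := hw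
    have hsub : insert w (A 0 \ S) ⊆
        univ.filter fun v : Fin n => v ∉ S ∧ ∃ q, Edge hkn q (insert v S) := by
      intro v hv
      rw [mem_filter]
      refine ⟨mem_univ _, ?_⟩
      rcases mem_insert.1 hv with rfl | hv
      · exact ⟨hwS, q, hwE⟩
      · obtain ⟨h1, h2⟩ := mem_sdiff.1 hv
        exact ⟨h2, q, hcase0 v h2 (mem_filter.1 h1).2⟩
    have hcard := card_le_card hsub
    rw [card_insert_of_notMem (fun hv => by
      have := (mem_filter.1 (mem_sdiff.1 hv).1).2
      omega)] at hcard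
    have h3 : (A 0 \ S).card + (S ∩ A 0).card = (A 0).card := by
      rw [inter_comm]; exact card_sdiff_add_card_inter (A 0) S
    omega
  · have hcase1 : ∀ v, v ∉ S → pos q v = 1 → Edge hkn q (insert v S) := by
      intro v hv hp
      refine ⟨hins v hv, hmid v hv (by omega), Or.inl ?_⟩
      rw [cnt_insert_of_le q (by omega)]
      exact h
    have hsub : (A 0 ∪ A 1) \ S ⊆
        univ.filter fun v : Fin n => v ∉ S ∧ ∃ q, Edge hkn q (insert v S) := by
      intro v hv
      obtain ⟨h1, h2⟩ := mem_sdiff.1 hv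
      rw [mem_filter]
      refine ⟨mem_univ _, h2, q, ?_⟩
      rcases mem_union.1 h1 with h1 | h1
      · exact hcase0 v h2 (mem_filter.1 h1).2
      · exact hcase1 v h2 (mem_filter.1 h1).2
    have hcard := card_le_card hsub
    have h3 : (A 0 ∪ A 1).card - S.card ≤ ((A 0 ∪ A 1) \ S).card := le_card_sdiff _ _
    rw [card_union_of_disjoint hdisj] at h3
    omega

end Pool.Agent.Helper75.SP
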