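import Mathlib

/-!
# Extension of maps into the complement of the origin

* `het`: homotopy extension (Borsuk).
* `ext_small`: maps on a compact set of small dimension extend to the whole space.
-/

namespace Pool.Agent.Helper75.SP

open Set Topology

theorem tietze {E W : Type*} [TopologicalSpace E] [NormalSpace E] [NormedAddCommGroup W]
    [NormedSpace ℝ W] [FiniteDimensional ℝ W] {s : Set E} (hs : IsClosed s) {f : E → W}
    (hf : ContinuousOn f s) : ∃ g : E → W, Continuous g ∧ EqOn g f s := by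
  have : TietzeExtension W := TietzeExtension.of_tvs ℝ
  obtain ⟨g, hg⟩ := ContinuousMap.exists_restrict_eq hs
    (⟨s.domRestrict f, continuousOn_iff_continuous_domRestrict.1 hf⟩ : C(s, W))
  refine ⟨g, g.continuous, fun x hx => ?_⟩
  have := congrArg (fun h : C(s, W) => h ⟨x, hx⟩) hg
  exact this

theorem het {E W : Type*} [MetricSpace E] [NormedAddCommGroup W]
    [NormedSpace ℝ W] [FiniteDimensional ℝ W] {Y : Set E} (hY : IsClosed Y) (Φ : E × ℝ → W)
    (hΦ : ContinuousOn Φ (Y ×ˢ Icc (0 : ℝ) 1))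
    (hne : ∀ x ∈ Y, ∀ t ∈ Icc (0 : ℝ) 1, Φ (x, t) ≠ 0)
    (F : E → W) (hF : Continuous F) (hF0 : ∀ x, F x ≠ 0) (hF1 : ∀ x ∈ Y, F x = Φ (x, 1)) :
    ∃ F' : E → W, Continuous F' ∧ (∀ x, F' x ≠ 0) ∧ ∀ x ∈ Y, F' x = Φ (x, 0) := by
  obtain ⟨g, hg, hge⟩ := tietze (hY.prod isClosed_Icc) hΦ
  let Ψ : E × ℝ → W := fun p => g p + (F p.1 - g (p.1, 1))
  have hΨ : Continuous Ψ := by
    refine hg.add ((hF.comp continuous_fst).sub (hg.comp ?_))
    fun_prop
  have h1 : ∀ x, Ψ (x, 1) = F x := fun x => by simp [Ψ]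
  have hY1 : ∀ x ∈ Y, ∀ t ∈ Icc (0 : ℝ) 1, Ψ (x, t) = Φ (x, t) := by
    intro x hx t ht
    have e1 : g (x, t) = Φ (x, t) := hge ⟨hx, ht⟩
    have e2 : g (x, 1) = Φ (x, 1) := hge ⟨hx, by simp⟩
    simp only [Ψ, e1, e2, hF1 x hx, sub_self, add_zero]
  -- the bad set
  let B : Set (E × unitInterval) := {p | Ψ (p.1, (p.2 : ℝ)) = 0}
  have hB : IsClosed B := by
    have : Continuous fun p : E × unitInterval => Ψ (p.1, (p.2 : ℝ)) := by
      refine hΨ.comp ?_
      fun_prop
    exact isClosed_eq this continuous_const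
  have hC : IsClosed (Prod.fst '' B) := isClosedMap_fst_of_compactSpace _ hB
  have hdis : Disjoint Y (Prod.fst '' B) := by
    rw [Set.disjoint_left]
    rintro x hx ⟨⟨y, t⟩, hyt, rfl⟩
    have := hY1 y hx t t.2
    exact hne y hx t t.2 (this ▸ hyt)
  obtain ⟨χ, h0, h1', hI⟩ := exists_continuous_zero_one_of_isClosed hY hC hdis
  refine ⟨fun x => Ψ (x, χ x), hΨ.comp (by fun_prop), fun x => ?_, fun x hx => ?_⟩
  · by_cases hx : x ∈ Prod.fst '' B
    · have : χ x = 1 := h1' hx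
      simp only [this, h1]
      exact hF0 x
    · intro h
      exact hx ⟨(x, ⟨χ x, hI x⟩), h, rfl⟩
  · have : χ x = 0 := h0 hx
    simp only [this]
    exact hY1 x hx 0 (by simp)

/-- A compact set covered by images of small dimension: some direction is missed. -/
theorem exists_dir {ι W : Type*} [Fintype ι] [NormedAddCommGroup W]
    [NormedSpace ℝ W] [FiniteDimensional ℝ W] (g : (ι → ℝ) → W) (hg : ContDiff ℝ 1 g) (c : ℕ)
    (hc : c < Module.finrank ℝ W) :
    ∃ v : W, v ≠ 0 ∧ ∀ x : ι → ℝ, ∀ G : Finset ι, G.card ≤ c → (∀ i, x i ≠ 0 → i ∈ G) →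
      ∑ i, x i = 1 → ∀ t : ℝ, 0 < t → t • g x ≠ v := by
  classical
  let Θ : (ι → ℝ) → W := fun y => (∑ i, y i) • g ((∑ i, y i)⁻¹ • y)
  let s : Set (ι → ℝ) := {y | 0 < ∑ i, y i}
  have hs : Convex ℝ s := by
    have : s = (Fintype.linearCombination ℝ (fun _ : ι => (1 : ℝ))) ⁻¹' (Ioi 0) := by
      ext y
      simp [s, Fintype.linearCombination_apply]
    rw [this]
    exact (convex_Ioi 0).linear_preimage _
  have hΘ : ContDiffOn ℝ 1 Θ s := by
    have h1 : ContDiffOn ℝ 1 (fun y : ι → ℝ => ∑ i, y i) s := by fun_prop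
    have h2 : ContDiffOn ℝ 1 (fun y : ι → ℝ => (∑ i, y i)⁻¹) s :=
      h1.inv fun y hy => (ne_of_gt hy)
    exact h1.smul (hg.comp_contDiffOn (h2.smul contDiffOn_id))
  let LG : Finset ι → Set (ι → ℝ) := fun G => {y | (∀ i, y i ≠ 0 → i ∈ G) ∧ 0 < ∑ i, y i}
  have hdim : ∀ G : Finset ι, dimH (Θ '' LG G) ≤ G.card := by
    intro G
    refine (hΘ.dimH_image_le hs (fun y hy => hy.2)).trans ?_
    let e : (G → ℝ) → (ι → ℝ) := fun c i => if h : i ∈ G then c ⟨i, h⟩ else 0
    have he : ContDiff ℝ 1 e := by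
      rw [contDiff_pi]
      intro i
      by_cases h : i ∈ G
      · simp only [e, h, dite_true]
        fun_prop
      · simp only [e, h, dite_false]
        exact contDiff_const
    refine (dimH_mono (t := range e) ?_).trans (he.dimH_range_le.trans ?_)
    · intro y hy
      refine ⟨fun i => y i, ?_⟩
      funext i
      by_cases h : i ∈ G
      · simp [e, h]
      · simp only [e, h, dite_false]
        by_contra h'
        exact h (hy.1 i (fun h0 => h' h0.symm))
    · simp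
  let U : Set W := (⋃ G ∈ {G : Finset ι | G.card ≤ c}, Θ '' LG G) ∪ {0}
  have hU : dimH U < Module.finrank ℝ W := by
    rw [dimH_union, dimH_singleton]
    refine max_lt ?_ (by exact_mod_cast (Nat.zero_le c).trans_lt hc)
    rw [dimH_bUnion (Set.to_countable _)]
    refine lt_of_le_of_lt (iSup₂_le fun G hG => (hdim G).trans ?_)
      (show (c : ENNReal) < Module.finrank ℝ W from by exact_mod_cast hc)
    exact_mod_cast hG
  obtain ⟨v, hv⟩ := (dense_compl_of_dimH_lt_finrank hU).nonempty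
  refine ⟨v, fun h => hv (Or.inr h), ?_⟩
  intro x G hG hx hs1 t ht htv
  refine hv (Or.inl ?_)
  simp only [mem_iUnion]
  refine ⟨G, hG, t • x, ⟨?_, ?_⟩, ?_⟩
  · intro i hi
    exact hx i (fun h => hi (by simp [h]))
  · simp only [Pi.smul_apply, smul_eq_mul, ← Finset.mul_sum, hs1, mul_one]
    exact ht
  · simp only [Θ, Pi.smul_apply, smul_eq_mul, ← Finset.mul_sum, hs1, mul_one]
    rw [smul_smul, inv_mul_cancel₀ ht.ne', one_smul]
    exact htv

/-- Maps from a compact set of dimension less than `dim W - 1` to `W \ 0` extend. -/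
theorem ext_small {ι W : Type*} [Fintype ι] [NormedAddCommGroup W]
    [NormedSpace ℝ W] [FiniteDimensional ℝ W] (c : ℕ) (hc : c < Module.finrank ℝ W)
    {Z : Set (ι → ℝ)} (hZ : IsCompact Z)
    (hZG : ∀ x ∈ Z, (∃ G : Finset ι, G.card ≤ c ∧ ∀ i, x i ≠ 0 → i ∈ G) ∧ ∑ i, x i = 1)
    (f : (ι → ℝ) → W) (hf : ContinuousOn f Z) (hf0 : ∀ x ∈ Z, f x ≠ 0) :
    ∃ F : (ι → ℝ) → W, Continuous F ∧ (∀ x, F x ≠ 0) ∧ ∀ x ∈ Z, F x = f x := by
  obtain ⟨f₁, hf₁, hfe⟩ := tietze hZ.isClosed hf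
  -- a positive lower bound
  obtain ⟨δ, hδ, hδf⟩ : ∃ δ : ℝ, 0 < δ ∧ ∀ x ∈ Z, δ ≤ ‖f₁ x‖ := by
    rcases Z.eq_empty_or_nonempty with h | h
    · exact ⟨1, one_pos, by simp [h]⟩
    · obtain ⟨x₀, hx₀, hmin⟩ := hZ.exists_isMinOn h (f := fun x => ‖f₁ x‖) hf₁.norm.continuousOn
      refine ⟨‖f₁ x₀‖, ?_, fun x hx => hmin hx⟩
      rw [norm_pos_iff, hfe hx₀]
      exact hf0 x₀ hx₀
  obtain ⟨g, hg, hgd, -⟩ := hf₁.exists_contDiff_approx 1 (ε := fun _ => δ / 2) continuous_const
    (fun _ => by positivity)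
  have hclose : ∀ x ∈ Z, ∀ t ∈ Icc (0 : ℝ) 1, (1 - t) • f x + t • g x ≠ 0 := by
    intro x hx t ht h
    have h1 : dist (g x) (f₁ x) < δ / 2 := hgd x
    rw [hfe hx] at h1
    have h2 := hδf x hx
    rw [hfe hx] at h2
    have h3 : f x = -(t • (g x - f x)) := by
      have : f x + t • (g x - f x) = 0 := by
        rw [← h]; rw [sub_smul, one_smul, smul_sub]; abel
      exact eq_neg_of_add_eq_zero_left this
    have h4 : ‖f x‖ ≤ ‖g x - f x‖ := by
      rw [h3, norm_neg, norm_smul]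
      rw [← h3]
      calc ‖t‖ * ‖g x - f x‖ ≤ 1 * ‖g x - f x‖ := by
            gcongr
            rw [Real.norm_eq_abs, abs_of_nonneg ht.1]; exact ht.2
        _ = ‖g x - f x‖ := one_mul _
    rw [dist_eq_norm] at h1
    linarith
  have hg0 : ∀ x ∈ Z, g x ≠ 0 := by
    intro x hx
    have := hclose x hx 1 (by simp)
    simpa using this
  obtain ⟨v, hv0, hv⟩ := exists_dir g (by simpa using hg) c hc
  -- first homotopy: from `g` to the constant `-v`
  obtain ⟨F₁, hF₁, hF₁0, hF₁e⟩ := het hZ.isClosed (fun p => (1 - p.2) • g p.1 + p.2 • (-v))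
    (by
      have : Continuous fun p : (ι → ℝ) × ℝ => (1 - p.2) • g p.1 + p.2 • (-v) := by
        have := hg.continuous
        fun_prop
      exact this.continuousOn)
    (by
      intro x hx t ht h
      obtain ⟨⟨G, hG, hxG⟩, hs⟩ := hZG x hx
      simp only at h
      rcases eq_or_lt_of_le ht.1 with h0 | h0
      · rw [← h0] at h
        simp only [sub_zero, one_smul, zero_smul, add_zero] at h
        exact hg0 x hx h
      rcases eq_or_lt_of_le ht.2 with h1 | h1
      · rw [h1] at h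
        simp only [sub_self, zero_smul, one_smul, zero_add, neg_eq_zero] at h
        exact hv0 h
      · refine hv x G hG hxG hs ((1 - t) / t) (div_pos (by linarith) h0) ?_
        rw [smul_neg, ← sub_eq_add_neg, sub_eq_zero] at h
        rw [div_eq_inv_mul, ← smul_smul, h, smul_smul, inv_mul_cancel₀ h0.ne', one_smul])
    (fun _ => -v) continuous_const (fun _ => neg_ne_zero.2 hv0) (by simp)
  -- second homotopy: from `f` to `g`
  obtain ⟨F₂, hF₂, hF₂0, hF₂e⟩ := het hZ.isClosed (fun p => (1 - p.2) • f p.1 + p.2 • g p.1)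
    (by
      have h1 : ContinuousOn (fun p : (ι → ℝ) × ℝ => f p.1) (Z ×ˢ Icc (0 : ℝ) 1) :=
        hf.comp continuousOn_fst (fun p hp => hp.1)
      have h2 : Continuous (fun p : (ι → ℝ) × ℝ => p.2 • g p.1) := by
        have := hg.continuous
        fun_prop
      have h3 : Continuous (fun p : (ι → ℝ) × ℝ => 1 - p.2) := by fun_prop
      exact (h3.continuousOn.smul h1).add h2.continuousOn)
    (fun x hx t ht => hclose x hx t ht)
    F₁ hF₁ hF₁0 (by
      intro x hx
      have := hF₁e x hx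
      simp only [sub_zero, one_smul, zero_smul, add_zero] at this
      simp [this])
  exact ⟨F₂, hF₂, hF₂0, fun x hx => by simpa using hF₂e x hx⟩

end Pool.Agent.Helper75.SP
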