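import Pool.Agent.Helper31.GZ.Brouwer

/-!
# Closed sets which do not separate the sphere
-/

namespace Pool.Agent.Helper75.SP

open Set Topology Metric

/-- If `X` is homeomorphic to the sphere of dimension `d`, `X = A₁ ∪ A₂` with `A₁`, `A₂` closed,
`A₁ ∩ A₂ ⊆ Y`, and every map `Y → ℝ^d \ 0` extends to `X`, then `A₁ \ A₂` or `A₂ \ A₁` lies
in `Y`. -/
theorem sep {X : Type*} [TopologicalSpace X] {d : ℕ}
    (θ : X ≃ₜ sphere (0 : EuclideanSpace ℝ (Fin (d + 1))) 1) {A₁ A₂ Y : Set X}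
    (h₁ : IsClosed A₁) (h₂ : IsClosed A₂) (hA : A₁ ∪ A₂ = univ) (hY : A₁ ∩ A₂ ⊆ Y)
    (hext : ∀ f : X → EuclideanSpace ℝ (Fin d), ContinuousOn f Y → (∀ x ∈ Y, f x ≠ 0) →
      ∃ F : X → EuclideanSpace ℝ (Fin d), Continuous F ∧ (∀ x, F x ≠ 0) ∧ ∀ x ∈ Y, F x = f x)
    {x₁ x₂ : X} (hx₁ : x₁ ∉ A₂) (hx₂ : x₂ ∉ A₁) (hy₁ : x₁ ∉ Y) (hy₂ : x₂ ∉ Y) : False := by
  classical
  have : Fact (Module.finrank ℝ (EuclideanSpace ℝ (Fin (d + 1))) = d + 1) := ⟨by simp⟩
  let σ := stereographic' d (θ x₂)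
  have hsrc : σ.source = {θ x₂}ᶜ := stereographic'_source _
  have htgt : σ.target = univ := stereographic'_target _
  let π : X → EuclideanSpace ℝ (Fin d) := fun x => σ (θ x)
  let e : EuclideanSpace ℝ (Fin d) → X := fun w => θ.symm (σ.symm w)
  have hπe : ∀ w, π (e w) = w := by
    intro w
    simp only [π, e, Homeomorph.apply_symm_apply]
    exact σ.right_inv (by rw [htgt]; trivial)
  have heπ : ∀ x, x ≠ x₂ → e (π x) = x := by
    intro x hx
    simp only [π, e]
    rw [σ.left_inv (by rw [hsrc]; exact fun h => hx (θ.injective h))]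
    simp
  have he2 : ∀ w, e w ≠ x₂ := by
    intro w h
    have h1 : σ.symm w ∈ σ.source := σ.map_target (by rw [htgt]; trivial)
    rw [hsrc] at h1
    apply h1
    rw [← h]
    simp [e]
  have hec : Continuous e := by
    refine θ.symm.continuous.comp ?_
    have := σ.continuousOn_symm
    rw [htgt] at this
    exact continuousOn_univ.1 this
  have hπc : ContinuousOn π {x₂}ᶜ := by
    refine σ.continuousOn.comp θ.continuous.continuousOn ?_
    intro x hx
    rw [hsrc]
    exact fun h => hx (θ.injective h)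
  have hne : x₁ ≠ x₂ := by
    rintro rfl
    have : x₁ ∈ A₁ ∪ A₂ := by rw [hA]; trivial
    rcases this with h | h
    · exact hx₂ h
    · exact hx₁ h
  have hπinj : ∀ x y, x ≠ x₂ → y ≠ x₂ → π x = π y → x = y := by
    intro x y hx hy h
    rw [← heπ x hx, h, heπ y hy]
  -- the map to be extended
  obtain ⟨F, hF, hF0, hFe⟩ := hext (fun x => π x - π x₁)
    ((hπc.mono fun x hx h => hy₂ (h ▸ hx)).sub continuousOn_const)
    (fun x hx h => hy₁ ((hπinj x x₁ (fun h => hy₂ (h ▸ hx)) hne (sub_eq_zero.1 h)) ▸ hx))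
  let G : EuclideanSpace ℝ (Fin d) → EuclideanSpace ℝ (Fin d) := fun w =>
    if e w ∈ A₁ then F (e w) else w - π x₁
  have hG1 : ∀ w, e w ∈ A₁ → G w = F (e w) := fun w hw => by simp [G, hw]
  have hG2 : ∀ w, e w ∈ A₂ → G w = w - π x₁ := by
    intro w hw
    by_cases h : e w ∈ A₁
    · simp only [G, h, ite_true]
      rw [hFe _ (hY ⟨h, hw⟩), hπe]
    · simp [G, h]
  have hG0 : ∀ w, G w ≠ 0 := by
    intro w
    by_cases h : e w ∈ A₁
    · rw [hG1 w h]; exact hF0 _
    · have h2 : e w ∈ A₂ := by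
        have : e w ∈ A₁ ∪ A₂ := by rw [hA]; trivial
        exact this.resolve_left h
      rw [hG2 w h2]
      intro h3
      apply hx₁
      rw [← heπ x₁ hne, ← sub_eq_zero.1 h3]
      exact h2
  have hGc : Continuous G := by
    have c1 : ContinuousOn G (e ⁻¹' A₁) := (hF.comp hec).continuousOn.congr fun w hw => hG1 w hw
    have c2 : ContinuousOn G (e ⁻¹' A₂) :=
      (continuous_id.sub continuous_const).continuousOn.congr fun w hw => hG2 w hw
    have := c1.union_of_isClosed c2 (h₁.preimage hec) (h₂.preimage hec)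
    rw [← preimage_union, hA, preimage_univ] at this
    exact continuousOn_univ.1 this
  -- boundedness
  have : CompactSpace X := θ.symm.compactSpace
  have hbd : Bornology.IsBounded (π '' A₁) :=
    (h₁.isCompact.image_of_continuousOn (hπc.mono fun x hx h => hx₂ (h ▸ hx))).isBounded
  obtain ⟨R₀, hR₀⟩ := hbd.exists_norm_le
  let R : ℝ := |R₀| + ‖π x₁‖ + 1
  have hR : 0 < R := by positivity
  have hout : ∀ w, ‖w - π x₁‖ = R → G w = w - π x₁ := by
    intro w hw
    apply hG2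
    have : e w ∈ A₁ ∪ A₂ := by rw [hA]; trivial
    refine this.resolve_left fun h => ?_
    have h1 : ‖w‖ ≤ R₀ := hR₀ w ⟨e w, h, hπe w⟩
    have h2 : ‖w - π x₁‖ ≤ ‖w‖ + ‖π x₁‖ := norm_sub_le _ _
    have h3 := le_abs_self R₀
    simp only [R] at hw
    linarith
  have hGn : ∀ w, ‖(R / ‖G w‖) • G w‖ = R := by
    intro w
    rw [norm_smul, norm_div, norm_norm, Real.norm_eq_abs, abs_of_pos hR,
      div_mul_cancel₀ _ (norm_ne_zero_iff.2 (hG0 w))]
  obtain ⟨w, hw⟩ := Pool.Agent.Helper31.GZ.Brouwer.brouwer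
    (fun w => π x₁ - (R / ‖G w‖) • G w)
    (continuous_const.sub ((continuous_const.div hGc.norm fun w =>
      norm_ne_zero_iff.2 (hG0 w)).smul hGc)) (‖π x₁‖ + R)
    (fun w => (norm_sub_le _ _).trans (by rw [hGn]))
  have hwR : ‖w - π x₁‖ = R := by
    rw [← hw, sub_sub_cancel_left, norm_neg, hGn]
  have h5 : w - π x₁ = -(w - π x₁) := by
    have : w - π x₁ = -((R / ‖G w‖) • G w) := by
      rw [← sub_sub_cancel_left (π x₁), hw]
    rw [hout w hwR, hwR, div_self hR.ne', one_smul] at this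
    exact this
  have h6 : w - π x₁ = 0 := by
    have : (2 : ℝ) • (w - π x₁) = 0 := by
      rw [two_smul]
      nth_rewrite 1 [h5]
      simp
    simpa using this
  rw [h6, norm_zero] at hwR
  exact hR.ne hwR

end Pool.Agent.Helper75.SP
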