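import Pool.Agent.Helper75.SP.Comb
import Pool.Agent.Helper75.SP.Collapse
import Pool.Agent.Helper75.SP.Sep

/-!
# A sphere in the hypergraph uses edges of one class only
-/

namespace Pool.Agent.Helper75.SP

open Finset

/-- The barycentre of a set of vertices. -/
noncomputable def bary {n : ℕ} (e : Finset (Fin n)) : Fin n → ℝ := by
  classical
  exact fun v => if v ∈ e then (e.card : ℝ)⁻¹ else 0

theorem bary_mem {n : ℕ} {F : Finset (Finset (Fin n))} {e : Finset (Fin n)} (he : e ∈ F)
    (h0 : e.card ≠ 0) : bary e ∈ realisation F := by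
  classical
  have h1 : (e.card : ℝ) ≠ 0 := by exact_mod_cast h0
  refine ⟨fun v => ?_, ?_, e, he, fun v hv => ?_⟩
  · unfold bary
    split_ifs
    · positivity
    · exact le_rfl
  · unfold bary
    rw [← sum_filter, filter_mem_eq_inter, univ_inter, sum_const, nsmul_eq_mul,
      mul_inv_cancel₀ h1]
  · by_contra h
    exact hv (by simp [bary, h])

theorem subset_of_bary {n : ℕ} {e G : Finset (Fin n)} (h0 : e.card ≠ 0)
    (h : ∀ v, bary e v ≠ 0 → v ∈ G) : e ⊆ G := by
  classical
  intro v hv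
  apply h
  have h1 : (e.card : ℝ) ≠ 0 := by exact_mod_cast h0
  simp only [bary, hv, if_true]
  exact inv_ne_zero h1

open Classical in
theorem one_class (d : ℕ) (hk : 3 ≤ d + 1) {n : ℕ} (hkn : d + 1 ≤ n)
    (F : Finset (Finset (Fin n))) (hF : ∀ e ∈ F, ∃ q : ZMod (d + 1), Edge hkn q e)
    (θ : realisation F ≃ₜ Metric.sphere (0 : EuclideanSpace ℝ (Fin (d + 1))) 1) :
    ∃ q : ZMod (d + 1), ∀ e ∈ F, Edge hkn q e := by
  rcases F.eq_empty_or_nonempty with rfl | ⟨e₁, he₁⟩
  · exact ⟨0, by simp⟩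
  let cls : Finset (Fin n) → ZMod (d + 1) := fun e =>
    if h : ∃ q : ZMod (d + 1), Edge hkn q e then h.choose else 0
  have hcls : ∀ e ∈ F, Edge hkn (cls e) e := by
    intro e he
    simp only [cls, hF e he, dite_true]
    exact (hF e he).choose_spec
  have hFc : ∀ e ∈ F, e.card = d + 1 := fun e he => (hcls e he).1
  refine ⟨cls e₁, fun e he => ?_⟩
  suffices h : cls e = cls e₁ by
    rw [← h]; exact hcls e he
  by_contra hne
  set q := cls e₁ with hq
  -- the designated vertices
  let z : Finset (Fin n) → Fin n := fun R =>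
    if h : ∃ q : ZMod (d + 1), Inter hkn q R then zz hkn h.choose else ⟨0, by omega⟩
  let 𝒵 : Finset (Finset (Fin n)) := univ.filter fun G => G.card ≤ d - 1 ∧ ∃ e ∈ F, G ⊆ e
  let 𝓡 : Finset (Finset (Fin n)) :=
    univ.filter fun R => (∃ q : ZMod (d + 1), Inter hkn q R) ∧ ∃ e ∈ F, R ⊆ e
  have hz : ∀ R ∈ 𝓡, ∃ q : ZMod (d + 1), Inter hkn q R ∧ z R = zz hkn q := by
    intro R hR
    have h := (mem_filter.1 hR).2.1
    refine ⟨h.choose, h.choose_spec, ?_⟩
    simp only [z, h, dite_true]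
  have hRc : ∀ R ∈ 𝓡, R.card = d := by
    intro R hR
    obtain ⟨q, hq, -⟩ := hz R hR
    exact hq.1
  have hsub : realisation (𝒵 ∪ 𝓡) ⊆ realisation F := by
    rintro x ⟨h0, h1, G, hG, hx⟩
    have : ∃ e ∈ F, G ⊆ e := by
      rcases mem_union.1 hG with h | h
      · exact (mem_filter.1 h).2.2
      · exact (mem_filter.1 h).2.2
    obtain ⟨e, he, hGe⟩ := this
    exact ⟨h0, h1, e, he, fun v hv => hGe (hx v hv)⟩
  have hYc : ∀ G ∈ 𝒵 ∪ 𝓡, G.card ≤ d := by
    intro G hG
    rcases mem_union.1 hG with h | h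
    · have := (mem_filter.1 h).2.1
      omega
    · exact (hRc G h).le
  have hb : ∀ e (he : e ∈ F), bary e ∉ realisation (𝒵 ∪ 𝓡) := by
    rintro e he ⟨-, -, G, hG, hx⟩
    have h1 := card_le_card (subset_of_bary (by rw [hFc e he]; omega) hx)
    have h2 := hYc G hG
    rw [hFc e he] at h1
    omega
  have hbF : ∀ e (he : e ∈ F), ∀ F' ⊆ F, bary e ∈ realisation F' → e ∈ F' := by
    rintro e he F' hF' ⟨-, -, f, hf, hx⟩
    have h1 := subset_of_bary (by rw [hFc e he]; omega) hx
    have h2 : e = f := eq_of_subset_of_card_le h1 (by rw [hFc e he, hFc f (hF' hf)])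
    rw [h2]; exact hf
  refine sep θ (A₁ := {x | (x : Fin n → ℝ) ∈ realisation (F.filter fun e => cls e = q)})
    (A₂ := {x | (x : Fin n → ℝ) ∈ realisation (F.filter fun e => cls e ≠ q)})
    (Y := {x | (x : Fin n → ℝ) ∈ realisation (𝒵 ∪ 𝓡)})
    (x₁ := ⟨bary e₁, bary_mem he₁ (by rw [hFc e₁ he₁]; omega)⟩)
    (x₂ := ⟨bary e, bary_mem he (by rw [hFc e he]; omega)⟩)
    ((isClosed_real _).preimage continuous_subtype_val)
    ((isClosed_real _).preimage continuous_subtype_val) ?_ ?_ ?_ ?_ ?_ (hb e₁ he₁) (hb e he)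
  · -- the two closed sets cover
    refine Set.eq_univ_of_forall fun x => ?_
    obtain ⟨h0, h1, f, hf, hx⟩ := x.2
    by_cases h : cls f = q
    · exact Or.inl ⟨h0, h1, f, mem_filter.2 ⟨hf, h⟩, hx⟩
    · exact Or.inr ⟨h0, h1, f, mem_filter.2 ⟨hf, h⟩, hx⟩
  · -- their intersection
    rintro x ⟨⟨h0, h1, e, he, hxe⟩, ⟨-, -, f, hf, hxf⟩⟩
    obtain ⟨he, heq⟩ := mem_filter.1 he
    obtain ⟨hf, hfq⟩ := mem_filter.1 hf
    let G : Finset (Fin n) := univ.filter fun v => (x : Fin n → ℝ) v ≠ 0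
    have hGx : ∀ v, (x : Fin n → ℝ) v ≠ 0 → v ∈ G := fun v hv => mem_filter.2 ⟨mem_univ _, hv⟩
    have hGe : G ⊆ e := fun v hv => hxe v (mem_filter.1 hv).2
    have hGf : G ⊆ f := fun v hv => hxf v (mem_filter.1 hv).2
    refine ⟨h0, h1, G, ?_, hGx⟩
    by_cases hGc : G.card ≤ d - 1
    · exact mem_union_left _ (mem_filter.2 ⟨mem_univ _, hGc, e, he, hGe⟩)
    · have hef : e ≠ f := by
        rintro rfl
        exact hfq heq
      have hGe' : G ≠ e := by
        rintro h
        apply hef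
        exact eq_of_subset_of_card_le (h ▸ hGf) (by rw [hFc e he, hFc f hf])
      have hGf' : G ≠ f := by
        rintro h
        apply hef
        exact (eq_of_subset_of_card_le (h ▸ hGe) (by rw [hFc e he, hFc f hf])).symm
      have hridge : ∀ g ∈ F, G ⊆ g → G ≠ g → ∃ v ∈ g, G = g.erase v := by
        intro g hg hGg hGg'
        have hlt : G ⊂ g := lt_of_le_of_ne hGg hGg'
        obtain ⟨v, hv, hvG⟩ := exists_of_ssubset hlt
        refine ⟨v, hv, eq_of_subset_of_card_le ?_ ?_⟩
        · intro u hu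
          exact mem_erase.2 ⟨fun h => hvG (h ▸ hu), hGg hu⟩
        · rw [card_erase_of_mem hv, hFc g hg]; omega
      obtain ⟨v, hv, hGv⟩ := hridge e he hGe hGe'
      obtain ⟨u, hu, hGu⟩ := hridge f hf hGf hGf'
      refine mem_union_right _ (mem_filter.2 ⟨mem_univ _, ?_, e, he, hGe⟩)
      have r1 := edge_ridge hk hkn (hcls e he) hv
      have r2 := edge_ridge hk hkn (hcls f hf) hu
      rw [← hGv] at r1
      rw [← hGu] at r2
      rcases r1 with r1 | r1
      · rcases r2 with r2 | r2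
        · exact absurd ((park_unique hk r2 r1).trans heq) hfq
        · exact ⟨_, r2⟩
      · exact ⟨_, r1⟩
  · -- extension
    intro f hf hf0
    let f' : (Fin n → ℝ) → EuclideanSpace ℝ (Fin d) := fun x =>
      if h : x ∈ realisation F then f ⟨x, h⟩ else 0
    have hf'x : ∀ (x : Fin n → ℝ) (hx : x ∈ realisation F), f' x = f ⟨x, hx⟩ := by
      intro x hx
      simp only [f', hx, dite_true]
    have hf'c : ContinuousOn f' (realisation (𝒵 ∪ 𝓡)) := by
      rw [continuousOn_iff_continuous_domRestrict] at hf ⊢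
      let j : realisation (𝒵 ∪ 𝓡) → {x : realisation F | (x : Fin n → ℝ) ∈ realisation (𝒵 ∪ 𝓡)} :=
        fun x => ⟨⟨x, hsub x.2⟩, x.2⟩
      have hj : Continuous j := by
        apply Continuous.subtype_mk
        apply Continuous.subtype_mk
        exact continuous_subtype_val
      have := hf.comp hj
      convert this using 1
      funext x
      exact hf'x x (hsub x.2)
    obtain ⟨G, hG, hG0, hGe⟩ := ext_collapse (d - 1) (by omega) (by
        rw [finrank_euclideanSpace_fin]; omega) 𝒵 𝓡 z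
      (fun G hG => (mem_filter.1 hG).2.1)
      (fun R hR => by rw [hRc R hR]; omega)
      (fun R hR => by
        obtain ⟨q, hq, hzq⟩ := hz R hR
        rw [hzq]; exact hq.2.2.2)
      (fun R hR v hv => by
        obtain ⟨-, -, e, he, hRe⟩ := mem_filter.1 hR
        refine mem_filter.2 ⟨mem_univ _, ?_, e, he, (erase_subset v R).trans hRe⟩
        rw [card_erase_of_mem hv, hRc R hR])
      (fun R hR R' hR' h => by
        obtain ⟨q, hq, hzq⟩ := hz R hR
        obtain ⟨q', hq', -⟩ := hz R' hR'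
        rw [hzq] at h
        exact inter_free hk hkn hq hq' h)
      f' hf'c (fun x hx => by
        rw [hf'x x (hsub hx)]
        exact hf0 _ hx)
    refine ⟨fun x => G x, hG.comp continuous_subtype_val, fun x => hG0 _, fun x hx => ?_⟩
    show G x = f x
    rw [hGe _ hx, hf'x _ x.2]
  · intro h
    have := hbF e₁ he₁ _ (filter_subset _ _) h
    exact (mem_filter.1 this).2 hq.symm
  · intro h
    have := hbF e he _ (filter_subset _ _) h
    exact hne (mem_filter.1 this).2

open Classical in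
/-- The hypergraphs without spanning spheres. -/
theorem main (k n : ℕ) (hk : 3 ≤ k) (hn : k * (k - 1) ≤ n) :
    ∃ H : Finset (Finset (Fin n)), (∀ e ∈ H, e.card = k) ∧
      (∀ S : Finset (Fin n), S.card = k - 1 → n / k ≤ (H.filter fun e => S ⊆ e).card) ∧
      ∀ F ⊆ H, Nonempty (realisation F ≃ₜ Metric.sphere (0 : EuclideanSpace ℝ (Fin k)) 1) →
        n / k ≤ (univ.filter fun v : Fin n => ∀ e ∈ F, v ∉ e).card := by
  obtain ⟨d, rfl⟩ : ∃ d, k = d + 1 := ⟨k - 1, by omega⟩
  have hkn : d + 1 ≤ n := by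
    refine le_trans ?_ hn
    exact Nat.le_mul_of_pos_right _ (by omega)
  let H : Finset (Finset (Fin n)) := univ.filter fun e => ∃ q : ZMod (d + 1), Edge hkn q e
  refine ⟨H, fun e he => ?_, fun S hS => ?_, fun F hF hθ => ?_⟩
  · obtain ⟨q, hq⟩ := (mem_filter.1 he).2
    exact hq.1
  · refine (many_ext hk hkn hn hS).trans ?_
    refine card_le_card_of_injOn (fun v => insert v S) ?_ ?_
    · intro v hv
      obtain ⟨-, -, hE⟩ := mem_filter.1 hv
      exact mem_filter.2 ⟨mem_filter.2 ⟨mem_univ _, hE⟩, subset_insert _ _⟩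
    · intro v hv u hu huv
      obtain ⟨-, hv', -⟩ := mem_filter.1 hv
      have : v ∈ insert u S := by
        have h : insert v S = insert u S := huv
        rw [← h]; exact mem_insert_self _ _
      exact (mem_insert.1 this).resolve_right hv'
  · obtain ⟨θ⟩ := hθ
    obtain ⟨q, hq⟩ := one_class d hk hkn F (fun e he => (mem_filter.1 (hF he)).2) θ
    refine (part_card q (j := d) (by omega)).trans (card_le_card ?_)
    intro v hv
    rw [mem_filter] at hv ⊢
    refine ⟨mem_univ _, fun e he hve => ?_⟩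
    obtain ⟨hc, h2, -⟩ := hq e he
    have h3 := h2 d (by omega) (by omega)
    have h4 : cnt q e d < e.card := by
      unfold cnt
      refine card_lt_card ((filter_ssubset).2 ⟨v, hve, ?_⟩)
      rw [hv.2]
      exact lt_irrefl _
    omega

end Pool.Agent.Helper75.SP
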